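import Pool.Agent.Helper14.WK.StA

/-!
# Project WK, module KN2: the trace from level pM to level M as a cusp form (all weights)
-/

set_option autoImplicit false

open UpperHalfPlane CongruenceSubgroup Matrix.SpecialLinearGroup
open scoped MatrixGroups ModularForm

namespace Pool.Agent.Helper22.WK

open Pool.Agent.Helper14.WK
open Pool.Agent.Helper14.CV (G0)

/-- the matrix with rows 1 0 and jM 1 -/
private def sg (M : ℕ) (j : ℤ) : SL(2, ℤ) :=
  ⟨!![1, 0; j * (M : ℤ), 1], by simp [Matrix.det_fin_two]⟩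

private theorem mem0 (N : ℕ) (g : SL(2, ℤ)) : g ∈ Gamma0 N ↔ (N : ℤ) ∣ g 1 0 := by
  rw [Gamma0_mem, ZMod.intCast_zmod_eq_zero_iff_dvd]

private theorem sg_mem (M : ℕ) (j : ℤ) : sg M j ∈ Gamma0 M := by
  rw [mem0]
  simp [sg]

private theorem G0_mem (N : ℕ) (g : SL(2, ℤ)) : mapGL ℝ g ∈ G0 N ↔ g ∈ Gamma0 N := by
  constructor
  · rintro ⟨γ, hγ, he⟩
    rw [mapGL_injective he] at hγ
    exact hγ
  · intro h
    exact Subgroup.mem_map_of_mem _ h

private theorem sg_mul (M : ℕ) (j : ℤ) (g : SL(2, ℤ)) :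
    (sg M j * g) 1 0 = j * M * g 0 0 + g 1 0 := by
  rw [Matrix.SpecialLinearGroup.coe_mul, Matrix.mul_apply, Fin.sum_univ_two]
  simp [sg]

private theorem sg_add (M : ℕ) (i j : ℤ) : sg M i * sg M j = sg M (i + j) := by
  apply Subtype.ext
  rw [Matrix.SpecialLinearGroup.coe_mul]
  simp only [sg]
  ext a b
  fin_cases a <;> fin_cases b <;> simp [Matrix.mul_apply, Fin.sum_univ_two]
  ring

private theorem sg_inv (M : ℕ) (j : ℤ) : (sg M j)⁻¹ = sg M (-j) := by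
  apply inv_eq_of_mul_eq_one_right
  rw [sg_add, add_neg_cancel]
  apply Subtype.ext
  simp only [sg]
  ext a b
  fin_cases a <;> fin_cases b <;> simp

/-- every element of `Γ₀(M)` is in one of the `p` classes -/
private theorem p_classes {p M : ℕ} (hp : p.Prime) (hpM : p ∣ M) {g : SL(2, ℤ)}
    (hg : g ∈ Gamma0 M) : ∃ j : Fin p, sg M (j : ℕ) * g ∈ Gamma0 (p * M) := by
  rw [mem0] at hg
  obtain ⟨c, hc⟩ := hg
  obtain ⟨m, hm⟩ := hpM
  have hdet := Matrix.SpecialLinearGroup.det_coe g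
  rw [Matrix.det_fin_two] at hdet
  have hpZ : Prime (p : ℤ) := Nat.prime_iff_prime_int.1 hp
  have hp0 : (0 : ℤ) < p := by exact_mod_cast hp.pos
  -- an inverse of `g 0 0` modulo `p` is `g 1 1`
  have h1 : g 0 0 * g 1 1 - 1 = (p : ℤ) * (g 0 1 * (m * c)) := by
    rw [hc, hm] at hdet
    push_cast at hdet
    linear_combination hdet
  -- j ≡ - c * g 1 1 mod p
  set t : ℤ := (-(c * g 1 1)) % (p : ℤ) with ht
  have ht0 : 0 ≤ t := Int.emod_nonneg _ hp0.ne'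
  have ht1 : t < p := Int.emod_lt_of_pos _ hp0
  obtain ⟨n, hn⟩ := Int.eq_ofNat_of_zero_le ht0
  have hnp : n < p := by
    rw [hn] at ht1
    exact_mod_cast ht1
  refine ⟨⟨n, hnp⟩, ?_⟩
  have hdiv : (-(c * g 1 1)) = (p : ℤ) * ((-(c * g 1 1)) / (p : ℤ)) + t := by
    rw [ht]
    exact (Int.mul_ediv_add_emod _ _).symm
  set r : ℤ := (-(c * g 1 1)) / (p : ℤ) with hr
  rw [mem0, sg_mul, hc]
  refine ⟨-(r * g 0 0) - c * (g 0 1 * (m * c)), ?_⟩
  have hn' : ((n : ℕ) : ℤ) = t := hn.symm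
  simp only
  rw [hn']
  push_cast
  linear_combination (-(M : ℤ) * g 0 0) * hdiv - (M : ℤ) * c * h1

/-- Module KN2. -/
theorem hKN2 : SKN2 := by
  classical
  intro p M hM hpM0 A f hp hpM
  have hM0 : M ≠ 0 := hM.out
  have hp0 : p ≠ 0 := hp.ne_zero
  have hle : G0 M ≤ 𝒮ℒ := by
    rintro _ ⟨γ, -, rfl⟩
    exact ⟨γ, rfl⟩
  have hfin : (G0 (p * M)).IsFiniteRelIndex (G0 M) := Subgroup.isFiniteRelIndex_of_le_right _ hle
  refine ⟨CuspForm.trace (G0 M) f, fun z hz => ?_⟩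
  set S : Fin p → ↥(G0 M) := fun j => ⟨mapGL ℝ (sg M (j : ℕ)), (G0_mem M _).2 (sg_mem M _)⟩ with hS
  let _ : Fintype (↥(G0 M) ⧸ (G0 (p * M)).subgroupOf (G0 M)) := Fintype.ofFinite _
  have hmk : ∀ x y : ↥(G0 M), (⟦x⟧ : ↥(G0 M) ⧸ (G0 (p * M)).subgroupOf (G0 M)) = ⟦y⟧ ↔
      ((x⁻¹ * y : ↥(G0 M)) : GL (Fin 2) ℝ) ∈ G0 (p * M) := by
    intro x y
    rw [Quotient.eq, QuotientGroup.leftRel_apply, Subgroup.mem_subgroupOf]
  have hinj : Function.Injective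
      (fun j : Fin p => (⟦(S j)⁻¹⟧ : ↥(G0 M) ⧸ (G0 (p * M)).subgroupOf (G0 M))) := by
    intro i j h
    simp only at h
    rw [hmk, inv_inv] at h
    have h5 : (S i * (S j)⁻¹ : ↥(G0 M)) = (⟨mapGL ℝ (sg M ((i : ℕ) + -(j : ℕ))),
        (G0_mem M _).2 (sg_mem M _)⟩ : ↥(G0 M)) := by
      apply Subtype.ext
      change mapGL ℝ (sg M (i : ℕ)) * (mapGL ℝ (sg M (j : ℕ)))⁻¹ =
        mapGL ℝ (sg M ((i : ℕ) + -(j : ℕ)))
      rw [← sg_add, ← sg_inv, map_mul, map_inv]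
    rw [h5] at h
    have h6 := (mem0 _ _).1 ((G0_mem _ _).1 h)
    obtain ⟨c, hc⟩ := h6
    have hc' : ((i : ℕ) + -(j : ℕ)) * (M : ℤ) = p * M * c := by
      have h7 : (sg M ((i : ℕ) + -(j : ℕ))) 1 0 = (((i : ℕ) : ℤ) + -((j : ℕ) : ℤ)) * (M : ℤ) := by
        simp [sg]
      rw [h7] at hc
      push_cast at hc ⊢
      exact hc
    have h8 : (M : ℤ) * (((i : ℕ) : ℤ) - ((j : ℕ) : ℤ) - p * c) = 0 := by
      linear_combination hc'
    have h9 : ((i : ℕ) : ℤ) - ((j : ℕ) : ℤ) - p * c = 0 := by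
      rcases mul_eq_zero.1 h8 with h4 | h4
      · exact absurd (by exact_mod_cast h4) hM0
      · exact h4
    have hi : ((i : ℕ) : ℤ) < p := by exact_mod_cast i.2
    have hj : ((j : ℕ) : ℤ) < p := by exact_mod_cast j.2
    have hi0 : (0 : ℤ) ≤ ((i : ℕ) : ℤ) := Int.natCast_nonneg _
    have hj0 : (0 : ℤ) ≤ ((j : ℕ) : ℤ) := Int.natCast_nonneg _
    have hpp : (0 : ℤ) < p := by exact_mod_cast hp.pos
    have hc0 : c = 0 := by
      have ha : c < 1 := by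
        by_contra hcon
        push Not at hcon
        nlinarith
      have hb : -1 < c := by
        by_contra hcon
        push Not at hcon
        nlinarith
      omega
    rw [hc0] at h9
    apply Fin.ext
    omega
  have hsurj : Function.Surjective
      (fun j : Fin p => (⟦(S j)⁻¹⟧ : ↥(G0 M) ⧸ (G0 (p * M)).subgroupOf (G0 M))) := by
    intro q
    induction q using Quotient.inductionOn with
    | h x =>
      obtain ⟨x, γ, hγ, rfl⟩ := x
      obtain ⟨j, hj⟩ := p_classes hp hpM hγ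
      refine ⟨j, ?_⟩
      simp only
      rw [hmk, inv_inv]
      have h5 : (S j * (⟨mapGL ℝ γ, γ, hγ, rfl⟩ : ↥(G0 M)) : ↥(G0 M)) =
          (⟨mapGL ℝ (sg M (j : ℕ) * γ),
            (G0_mem M _).2 (mul_mem (sg_mem M _) hγ)⟩ : ↥(G0 M)) := by
        apply Subtype.ext
        change mapGL ℝ (sg M (j : ℕ)) * mapGL ℝ γ = mapGL ℝ (sg M (j : ℕ) * γ)
        rw [map_mul]
      rw [h5]
      exact (G0_mem _ _).2 hj
  set w : ℍ := ⟨z, hz⟩ with hw
  have hwz : (w : ℂ) = z := rfl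
  have e0 : ∀ (N : ℕ) (k : CuspForm (G0 N) (2 * A + 2)) (v : ℍ), fzK k (v : ℂ) = k v := by
    intro N k v
    unfold fzK
    rw [UpperHalfPlane.ofComplex_apply]
  have e2 : ∀ j : ℤ, ((f : ℍ → ℂ) ∣[(2 * (A : ℤ) + 2 : ℤ)] (mapGL ℝ (sg M j))) w
      = ((j * M * z + 1) ^ (2 * A + 2))⁻¹ * fzK f (z / (j * M * z + 1)) := by
    intro j
    refine (ModularForm.SL_slash_apply (k := (2 * (A : ℤ) + 2 : ℤ)) (f : ℍ → ℂ) (sg M j) w).trans ?_
    have h6 : ((sg M j • w : ℍ) : ℂ) = z / (j * M * z + 1) := by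
      rw [UpperHalfPlane.coe_specialLinearGroup_apply]
      simp [sg, hwz]
    have h7 : UpperHalfPlane.denom (sg M j) w = j * M * z + 1 := by
      rw [ModularGroup.denom_apply]
      simp [sg, hwz]
    rw [← h6, e0, h7, mul_comm, zpow_neg]
    have h8 : ∀ x : ℂ, x ^ (2 * (A : ℤ) + 2 : ℤ) = x ^ (2 * A + 2) := by
      intro x
      rw [← zpow_natCast]
      congr 1
    rw [h8]
  have hs : ∑ q : ↥(G0 M) ⧸ (G0 (p * M)).subgroupOf (G0 M), SlashInvariantForm.quotientFunc f q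
      = ∑ j : Fin p, SlashInvariantForm.quotientFunc f
        (⟦(S j)⁻¹⟧ : ↥(G0 M) ⧸ (G0 (p * M)).subgroupOf (G0 M)) :=
    (Function.Bijective.sum_comp ⟨hinj, hsurj⟩ _).symm
  have e1 : CuspForm.trace (G0 M) f w
      = ∑ j : Fin p, ((f : ℍ → ℂ) ∣[(2 * (A : ℤ) + 2 : ℤ)] (mapGL ℝ (sg M (j : ℕ)))) w := by
    rw [CuspForm.coe_trace]
    refine (congrFun hs w).trans ?_
    rw [Finset.sum_apply]
    refine Finset.sum_congr rfl fun j _ => ?_
    rw [SlashInvariantForm.quotientFunc_mk, Subgroup.coe_inv, inv_inv]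
  rw [← hwz, e0, e1, Finset.sum_range]
  refine Finset.sum_congr rfl fun j _ => ?_
  rw [e2, hwz]
  push_cast
  rfl

end Pool.Agent.Helper22.WK
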