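import Pool.Agent.Helper14.WK.StA

/-!
# Project WK, module KP6: the trace relation for the potentials
-/

set_option autoImplicit false

open Filter Topology

namespace Pool.Agent.Helper22.WK

open Pool.Agent.Helper14.WK
open Pool.Agent.Helper14.CV (G0 Homog)
open Pool.Agent.Helper28.WK (pr cp)

/-- Passage to the limit in `prE`. -/
private theorem tendsto_prE {N : ℕ} {A : ℕ} {f : CuspForm (G0 N) (2 * A + 2)}
    {I : ℤ → ℤ → ℕ → ℂ} (hI : IsPotK A f I) (P : Polynomial ℤ) (hP : P.natDegree ≤ 2 * A)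
    (a b c d : ℤ) (hd : 0 < a * d - b * c) (x : ℝ) :
    Tendsto (fun y : ℝ => prE f P ((a * (x + y * Complex.I) + b) /
      (c * (x + y * Complex.I) + d))) atTop (𝓝 (pr I P a c)) := by
  have e : pr I P a c = ∑ i ∈ P.support, (P.coeff i : ℂ) * I a c i := by
    unfold pr
    rw [Polynomial.sum_def]
    refine Finset.sum_congr rfl fun i _ => ?_
    rw [zsmul_eq_mul]
  rw [e]
  unfold prE
  simp only [Polynomial.sum_def]
  refine tendsto_finsetSum _ fun i hi => ?_
  exact (hI a b c d hd i ((Polynomial.le_natDegree_of_mem_supp i hi).trans hP) x).const_mul _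

private theorem natDegree_mp (A : ℕ) (a b c d : ℤ) (j : ℕ) (hj : j ≤ 2 * A) :
    (mp A a b c d j).natDegree ≤ 2 * A := by
  unfold mp
  refine Polynomial.natDegree_mul_le.trans ?_
  have h1 : ((Polynomial.C a * Polynomial.X + Polynomial.C b) ^ j).natDegree ≤ j * 1 :=
    Polynomial.natDegree_pow_le_of_le j Polynomial.natDegree_linear_le
  have h2 : ((Polynomial.C c * Polynomial.X + Polynomial.C d) ^ (2 * A - j)).natDegree ≤
      (2 * A - j) * 1 :=
    Polynomial.natDegree_pow_le_of_le _ Polynomial.natDegree_linear_le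
  omega

private theorem aeval_mp (A : ℕ) (a b c d : ℤ) (j : ℕ) (z : ℂ) :
    Polynomial.aeval z (mp A a b c d j) = (a * z + b) ^ j * (c * z + d) ^ (2 * A - j) := by
  unfold mp
  simp

private theorem den_ne (t : ℝ) (z : ℂ) (hz : 0 < z.im) : (t : ℂ) * z + 1 ≠ 0 := by
  intro h
  have h1 := congrArg Complex.im h
  have h2 := congrArg Complex.re h
  simp at h1 h2
  rcases h1 with h1 | h1
  · rw [h1] at h2
    simp at h2
  · exact hz.ne' h1

private theorem im_pos_aux (t : ℝ) (z : ℂ) (hz : 0 < z.im) : 0 < (z / ((t : ℂ) * z + 1)).im := by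
  have h0 := den_ne t z hz
  have hn : 0 < Complex.normSq ((t : ℂ) * z + 1) := Complex.normSq_pos.2 h0
  rw [Complex.div_im]
  have e : z.im * ((t : ℂ) * z + 1).re / Complex.normSq ((t : ℂ) * z + 1) -
      z.re * ((t : ℂ) * z + 1).im / Complex.normSq ((t : ℂ) * z + 1) =
      z.im / Complex.normSq ((t : ℂ) * z + 1) := by
    rw [← sub_div]
    congr 1
    simp
    ring
  rw [e]
  exact div_pos hz hn

private theorem im_pos_mob (a b c d : ℤ) (hd : 0 < a * d - b * c) (z : ℂ) (hz : 0 < z.im) :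
    (c : ℂ) * z + d ≠ 0 ∧ 0 < (((a : ℂ) * z + b) / ((c : ℂ) * z + d)).im := by
  have h0 : (c : ℂ) * z + d ≠ 0 := by
    intro h
    have h1 := congrArg Complex.im h
    have h2 := congrArg Complex.re h
    simp at h1 h2
    rcases h1 with h1 | h1
    · rw [h1] at h2
      simp at h2
      rw [h1, h2] at hd
      simp at hd
    · exact hz.ne' h1
  refine ⟨h0, ?_⟩
  have hn : 0 < Complex.normSq ((c : ℂ) * z + d) := Complex.normSq_pos.2 h0
  rw [Complex.div_im]
  have e : ((a : ℂ) * z + b).im * ((c : ℂ) * z + d).re / Complex.normSq ((c : ℂ) * z + d) -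
      ((a : ℂ) * z + b).re * ((c : ℂ) * z + d).im / Complex.normSq ((c : ℂ) * z + d) =
      ((a * d - b * c : ℤ) : ℝ) * z.im / Complex.normSq ((c : ℂ) * z + d) := by
    rw [← sub_div]
    congr 1
    simp
    ring
  rw [e]
  have hd' : (0 : ℝ) < ((a * d - b * c : ℤ) : ℝ) := by exact_mod_cast hd
  exact div_pos (mul_pos hd' hz) hn

private theorem mob_aux (t n m : ℂ) (hm : m ≠ 0) :
    n / (t * n + m) = n / m / (t * (n / m) + 1) := by
  have e : t * (n / m) + 1 = (t * n + m) / m := by
    field_simp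
  rw [e, div_div_div_cancel_right₀ hm]

/-- Module KP6. -/
theorem hKP6 (he : SKE) (hp : SKP1) : SKP6 := by
  intro N hN A f I r M hI htr j hj
  set P : ℕ → Polynomial ℤ := fun i => mp A 1 0 (-(i * M : ℤ)) 1 j with hP
  set G : ℂ → ℂ := fun z => ∑ i ∈ Finset.range r, prE f (P i) (z / (i * M * z + 1)) with hG
  set U : Set ℂ := {z : ℂ | 0 < z.im} with hU
  have hUo : IsOpen U := isOpen_lt continuous_const Complex.continuous_im
  have hUc : IsPreconnected U := (convex_halfSpace_im_gt 0).isPreconnected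
  have hden : ∀ (i : ℕ) (z : ℂ), 0 < z.im → (i * M * z + 1 : ℂ) ≠ 0 := by
    intro i z hz
    have := den_ne (i * M : ℝ) z hz
    push_cast at this
    exact this
  have him : ∀ (i : ℕ) (z : ℂ), 0 < z.im → 0 < (z / (i * M * z + 1 : ℂ)).im := by
    intro i z hz
    have := im_pos_aux (i * M : ℝ) z hz
    push_cast at this
    exact this
  have hder : ∀ z ∈ U, HasDerivAt G 0 z := by
    intro z hz
    have hz' : 0 < z.im := hz
    have hterm : ∀ i ∈ Finset.range r, HasDerivAt (fun z : ℂ => prE f (P i) (z / (i * M * z + 1)))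
        (z ^ j * (((i * M * z + 1) ^ (2 * A + 2))⁻¹ * fzK f (z / (i * M * z + 1)))) z := by
      intro i _
      have h0 := hden i z hz'
      have h1 := (he N hN (2 * A + 2) f (z / (i * M * z + 1)) (him i z hz')).2 (P i)
      have h2 : HasDerivAt (fun z : ℂ => z / (i * M * z + 1)) (1 / (i * M * z + 1) ^ 2) z := by
        have h3 : HasDerivAt (fun z : ℂ => (i * M * z + 1 : ℂ)) (i * M) z := by
          have := ((hasDerivAt_id z).const_mul (i * M : ℂ)).add_const (1 : ℂ)
          simpa using this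
        have h4 := (hasDerivAt_id z).div h3 h0
        refine h4.congr_deriv ?_
        simp only [id]
        congr 1
        ring
      have h5 := h1.comp z h2
      refine h5.congr_deriv ?_
      rw [hP]
      simp only
      rw [aeval_mp]
      have e1 : (((1 : ℤ) : ℂ) * (z / (i * M * z + 1)) + ((0 : ℤ) : ℂ)) = z / (i * M * z + 1) := by
        push_cast
        ring
      have e2 : (((-(i * M : ℤ) : ℤ) : ℂ) * (z / (i * M * z + 1)) + ((1 : ℤ) : ℂ)) =
          (i * M * z + 1 : ℂ)⁻¹ := by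
        push_cast
        field_simp
        ring
      rw [e1, e2]
      have e3 : (z / (i * M * z + 1)) ^ j * ((i * M * z + 1 : ℂ)⁻¹) ^ (2 * A - j) =
          z ^ j * ((i * M * z + 1 : ℂ) ^ (2 * A))⁻¹ := by
        rw [div_eq_mul_inv, mul_pow, mul_assoc, ← pow_add, inv_pow]
        congr 4
        omega
      rw [e3]
      have e4 : ((i * M * z + 1 : ℂ) ^ (2 * A + 2))⁻¹ =
          ((i * M * z + 1 : ℂ) ^ (2 * A))⁻¹ * (1 / (i * M * z + 1) ^ 2) := by
        rw [pow_add, mul_inv, one_div]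
      rw [e4]
      ring
    have h6 := HasDerivAt.fun_sum hterm
    refine h6.congr_deriv ?_
    rw [← Finset.mul_sum, htr z hz', mul_zero]
  have hconst : ∀ z ∈ U, G z = G Complex.I := by
    intro z hz
    refine hUo.is_const_of_deriv_eq_zero hUc
      (fun w hw => (hder w hw).differentiableAt.differentiableWithinAt)
      (fun w hw => (hder w hw).deriv) hz ?_
    simp [hU]
  refine ⟨G Complex.I, fun p q hpq => ?_⟩
  have hdet : 0 < p * p - (-q) * q := by
    rcases hpq with h | h
    · have := mul_self_pos.2 h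
      nlinarith [mul_self_nonneg q]
    · have := mul_self_pos.2 h
      nlinarith [mul_self_nonneg p]
  -- the path
  set pth : ℝ → ℂ := fun y => ((p : ℂ) * (((0 : ℝ) : ℂ) + y * Complex.I) + ((-q : ℤ) : ℂ)) /
    ((q : ℂ) * (((0 : ℝ) : ℂ) + y * Complex.I) + (p : ℂ)) with hpth
  have hτ : ∀ y : ℝ, 0 < y → 0 < (((0 : ℝ) : ℂ) + y * Complex.I).im := by
    intro y hy
    simpa using hy
  have hlim : Tendsto (fun y : ℝ => G (pth y)) atTop
      (𝓝 (∑ i ∈ Finset.range r, pr I (P i) p (i * M * p + q))) := by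
    refine tendsto_finsetSum _ fun i _ => ?_
    have hd2 : 0 < p * ((i * M : ℤ) * (-q) + p) - (-q) * ((i * M : ℤ) * p + q) := by
      nlinarith [hdet]
    have h1 := tendsto_prE hI (P i) (natDegree_mp A _ _ _ _ j hj) p (-q) ((i * M : ℤ) * p + q)
      ((i * M : ℤ) * (-q) + p) hd2 0
    refine h1.congr' ?_
    filter_upwards [eventually_gt_atTop 0] with y hy
    congr 1
    obtain ⟨hne, hpos⟩ := im_pos_mob p (-q) q p hdet _ (hτ y hy)
    obtain ⟨hne2, -⟩ := im_pos_mob p (-q) ((i * M : ℤ) * p + q) ((i * M : ℤ) * (-q) + p) hd2 _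
      (hτ y hy)
    have hne3 := hden i _ hpos
    have e1 : ((((i * M : ℤ) * p + q : ℤ) : ℂ) * (((0 : ℝ) : ℂ) + y * Complex.I) +
        (((i * M : ℤ) * (-q) + p : ℤ) : ℂ)) = i * M * ((p : ℂ) * (((0 : ℝ) : ℂ) + y * Complex.I) +
        ((-q : ℤ) : ℂ)) + ((q : ℂ) * (((0 : ℝ) : ℂ) + y * Complex.I) + (p : ℂ)) := by
      push_cast
      ring
    rw [e1]
    exact mob_aux _ _ _ hne
  have hlim2 : Tendsto (fun y : ℝ => G (pth y)) atTop (𝓝 (G Complex.I)) := by
    refine tendsto_const_nhds.congr' ?_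
    filter_upwards [eventually_gt_atTop 0] with y hy
    obtain ⟨hne, hpos⟩ := im_pos_mob p (-q) q p hdet _ (hτ y hy)
    exact (hconst _ hpos).symm
  exact tendsto_nhds_unique hlim hlim2

end Pool.Agent.Helper22.WK
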